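import Pool.Agent.L0h18.CP.Log
import Pool.Agent.L0h18.EF.Prod

/-!
The inequality of Campana and Peternell for the log pairs dominated by the product of several open
varieties and a curve.
-/

set_option autoImplicit false
set_option linter.overlappingInstances false
set_option linter.unusedSectionVars false
set_option linter.unusedVariables false
set_option maxHeartbeats 4000000
set_option synthInstance.maxHeartbeats 400000

open FF IntermediateField Module

namespace Pool.Agent.L0h18.CP

open Pool.Agent.W602.GT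
open Pool.Agent.N145.SX
open Pool.Agent.N162.GQ (Factor sep_factor fGON DivKodGe)

/-- **The logarithmic canonical forms separate `r` points.** `E` is the function field of a
variety `X°` of dimension `m`, `BX` is the set of places of `E` without centre on `X°`, and `D` is a
rational frame of the tangent bundle. The embeddings `σ : E → Ω` are the generic points of `X` with
coordinates in the field `Ω`. At most `r` different such points impose independent conditions on the
logarithmic canonical forms `ω` (`LogSec` with exponent one): if `∑ c σ * σ (ω D) = 0` for all `ω`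
then all the coefficients `c σ` are zero. -/
def SeparatesPoints (E : Type) [Field E] [Algebra ℂ E] (m : ℕ) (BX : Place ℂ E → Prop) (r : ℕ) :
    Prop :=
  ∀ D : Fin m → Derivation ℂ E E, LinearIndependent E D →
    ∀ (Ω : Type) [Field Ω] [Algebra ℂ Ω] [IsAlgClosed Ω] (A : Finset (E →ₐ[ℂ] Ω)), A.card ≤ r →
    ∀ c : (E →ₐ[ℂ] Ω) → Ω,
    (∀ ω : (Fin m → Derivation ℂ E E) → E, LogSec ℂ E m 1 BX ω →
      ∑ σ ∈ A, c σ * σ (ω D) = 0) → ∀ σ ∈ A, c σ = 0

/-- any boundary is allowed if the regular canonical forms separate the points -/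
theorem SeparatesPoints.of_regular {E : Type} [Field E] [Algebra ℂ E] {m r : ℕ}
    (h : Pool.Agent.L0h18.EF.SeparatesPoints E m r) (BX : Place ℂ E → Prop) :
    SeparatesPoints E m BX r := by
  intro D hD Ω _ _ _ A hA c hc
  exact h D hD Ω A hA c fun ω h1 h2 => hc ω ⟨h1, fun P hP D' hD' =>
    h2 P hP D' fun i => Pool.Agent.TH466.QG.derReg_of_log (hD' i), fun P hP _ => h2 P hP⟩

section

variable {K : Type} [Field K] [Algebra ℂ K] {k : ℕ}

/-- The place `Q` of the function field `K` of the product lies over a place of `F i`, `i < k`,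
without centre on `X° i`, or over a point in `B`: it has no centre on the product of the `X° i` and
`U`. -/
def Boundary {F : Fin (k + 1) → IntermediateField ℂ K}
    (BX : ∀ i : Fin k, Place ℂ (F i.castSucc) → Prop) (B : Set (Place ℂ (F (Fin.last k))))
    (Q : Place ℂ K) : Prop :=
  (∃ (i : Fin k) (P : Place ℂ (F i.castSucc)) (e : ℕ), BX i P ∧ 0 < e ∧
    ∀ f : F i.castSucc, Q.ord (f : K) = e * P.ord f) ∨
  ∃ p ∈ B, ∃ e : ℕ, 0 < e ∧ ∀ f : F (Fin.last k), Q.ord (f : K) = e * p.ord f

/-- The set `BW` of places of the function field `L` of `W` is the boundary of the image of the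
product: for all places `Q` of `K` over a place `P` of `L`, `P` is in `BW` if and only if `Q` has no
centre on the product of the `X° i` and `U`. -/
def IsImageBoundary {F : Fin (k + 1) → IntermediateField ℂ K}
    (BX : ∀ i : Fin k, Place ℂ (F i.castSucc) → Prop) (B : Set (Place ℂ (F (Fin.last k))))
    (L : Type) [Field L] [Algebra ℂ L] [Algebra L K] (BW : Place ℂ L → Prop) : Prop :=
  ∀ (P : Place ℂ L) (Q : Place ℂ K) (e : ℕ), 0 < e →
    (∀ f : L, Q.ord (algebraMap L K f) = e * P.ord f) → (BW P ↔ Boundary BX B Q)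

theorem cp_prod [Algebra.EssFiniteType ℂ K] (m : Fin k → ℕ)
    (F : Fin (k + 1) → IntermediateField ℂ K) [∀ i, Algebra.EssFiniteType ℂ (F i)]
    [IsFF ℂ (F (Fin.last k))] (hF : ⨆ i, F i = ⊤)
    (hm : ∀ i : Fin k, Algebra.trdeg ℂ (F i.castSucc) = m i)
    (hK : Algebra.trdeg ℂ K = (∑ i, m i + 1 : ℕ))
    (BX : ∀ i : Fin k, Place ℂ (F i.castSucc) → Prop) (B : Set (Place ℂ (F (Fin.last k))))
    (hB : B.Finite) (L : Type) [Field L] [Algebra ℂ L]
    [Algebra L K] [IsScalarTower ℂ L K] [FiniteDimensional L K]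
    (BW : Place ℂ L → Prop) (hBW : IsImageBoundary BX B L BW)
    (hX : ∀ i : Fin k, SeparatesPoints (F i.castSucc) (m i) (BX i)
      (2 * Pool.Agent.N162.GQ.deg F L i.castSucc))
    {r : ℕ} (hr : 1 ≤ r) {a : Place ℂ L → ℤ} (ha : PsefRest L (∑ i, m i + 1) r BW a) {l : ℕ}
    (hl : DivKodGe L (∑ i, m i + 1) a l) : KodGe ℂ L (∑ i, m i + 1) BW l := by
  choose x D hx hD using fun i : Fin k => Pool.Agent.Y172.exists_crd (hm i)
  have hL : Algebra.trdeg ℂ L = (∑ i, m i + 1 : ℕ) := Pool.Agent.Y184.NT.trdeg_below (K := K) hK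
  have h := multi_log (L := L) hF hm hK hx hB (BX := BX) (BL := BW) (fun P Q e h => by
      rw [hBW P Q e h.1 h.2]
      rfl)
    (g := fun i => 2 * Pool.Agent.N162.GQ.deg F L i.castSucc + 1)
    (fun i => sepX_of (hx i) (hD i) fun Ω _ _ _ A hA c hc =>
      hX i (D i) (dual_indep (hD i)) Ω A hA c hc)
    (fun i => by
      rw [Pool.Agent.N162.GQ.deg_eq]
      exact Nat.lt_succ_self _)
  exact cp_of_dich hL hr (fun hp => (h.out 0 1).1 hp) ha hl

end

end Pool.Agent.L0h18.CP
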